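import Pool.Agent.N879.PU.Asm3
import Pool.Agent.N879.PU.Ku
import Pool.Agent.N879.PU.Reg
import Pool.Agent.N879.PU.Winu
import Pool.Agent.N879.PU.Telu
import Pool.Agent.N879.PU.Iru
import Pool.Agent.N879.PU.Em
import Pool.Agent.N879.PU.Mv
import Pool.Agent.N879.PU.Sms
import Pool.Agent.TH509.GS.DIAG
import Pool.Agent.TH367.GS.SS
import Pool.Agent.TH347.GS.A4
import Pool.Agent.TH228.GS.ZM
import Pool.Agent.TH767.GS.NS
import Pool.Agent.TH448.GS.FL2
import Pool.Agent.TH757.GS.CONT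
import Pool.Agent.TH753.GS.GL2
import Pool.Agent.TH811.GS.One
import Pool.Agent.TH928.GS.MV

set_option autoImplicit false

/-! Assembly of the project PU of the starting library. -/

namespace Pool.Agent.V7H6.PU

open Pool.Agent.N879.PU

theorem main : S_MAINU2 := by
  have hFL : Pool.Agent.TH612.GS.S_FL2 := Pool.Agent.TH448.GS.t_FL2
  refine t_MAINU2 (t_KU t_EM t_MVS (t_MVT t_MVS)) (t_REG t_SMS) (t_WINU t_MVS) t_TELU t_IRU
    Pool.Agent.TH509.GS.t_DIAG (Pool.Agent.TH367.GS.t_SS hFL)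
    (Pool.Agent.TH347.GS.t_A4 Pool.Agent.TH757.GS.t_CONT (Pool.Agent.TH753.GS.t_GL2 hFL))
    (Pool.Agent.TH228.GS.t_ZM (Pool.Agent.TH811.GS.t_ONE Pool.Agent.TH928.GS.t_MV))
    Pool.Agent.TH767.GS.t_NS

end Pool.Agent.V7H6.PU
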